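import Mathlib

/-!
# Completions with respect to classes of spaces between the Scott spaces and the d-spaces

Let `K` be any class of spaces which contains the Scott spaces and consists of monotone convergence
spaces (d-spaces).  For `T0` spaces `X` the `K`-completions of `X` are exactly the D-completions
`X → Y` with `Y` in `K`.  The answer to Q1 is the case of the class of the Scott spaces.  Moreover a
continuous map `i : X → Y` between `T0` spaces, `Y` not necessarily a d-space, is universal for the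
maps into Scott spaces if and only if it is universal for the maps into d-spaces, if and only if
its composition with the D-completion of `Y` is the D-completion of `X`.

The space `Z C` of pairs of a point of `C` and a family of open neighbourhoods of this point, the
proof of `lub`, `hat_open`, `top_nhds` and the main part of the proof of `dCompletion_of_universal`
are those of the library module `R_pool_sql_team_22c7b01f/Results/MP_50fe75_gt/Comp.lean`
(for Scott spaces `Y`).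
-/

set_option autoImplicit false

open Set Topology

namespace Pool.Agent.Results.MP_50fe75_gt.EveryClass

universe u

section Defs

variable {X : Type u} [TopologicalSpace X]

/-- The specialization order. -/
def Sp (x y : X) : Prop := x ∈ closure {y}

/-- Directed subsets with respect to the specialization order. -/
def Dir (D : Set X) : Prop := D.Nonempty ∧ ∀ a ∈ D, ∀ b ∈ D, ∃ c ∈ D, Sp a c ∧ Sp b c

/-- `s` is a supremum of `D` with respect to the specialization order. -/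
def IsSup (D : Set X) (s : X) : Prop := (∀ d ∈ D, Sp d s) ∧ ∀ u, (∀ d ∈ D, Sp d u) → Sp s u

/-- Scott open subsets with respect to the specialization order. -/
def ScottOpen (U : Set X) : Prop := (∀ a ∈ U, ∀ b, Sp a b → b ∈ U) ∧
  ∀ D s, Dir D → IsSup D s → s ∈ U → (D ∩ U).Nonempty

/-- The d-closed subsets. -/
def DClosed (A : Set X) : Prop := ∀ D ⊆ A, Dir D → ∀ s, IsSup D s → s ∈ A

/-- The d-dense subsets. -/
def DDense (A : Set X) : Prop := ∀ C, DClosed C → A ⊆ C → C = univ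

end Defs

/-- Scott spaces. -/
def ScottSpace (X : Type u) [TopologicalSpace X] : Prop :=
  T0Space X ∧ (∀ D : Set X, Dir D → ∃ s, IsSup D s) ∧ ∀ U : Set X, IsOpen U ↔ ScottOpen U

/-- Monotone convergence spaces (d-spaces). -/
def DSpace (X : Type u) [TopologicalSpace X] : Prop :=
  T0Space X ∧ (∀ D : Set X, Dir D → ∃ s, IsSup D s) ∧ ∀ U : Set X, IsOpen U → ScottOpen U

/-- `i` is a D-completion. -/
def DCompletion {X Y : Type u} [TopologicalSpace X] [TopologicalSpace Y] (i : X → Y) : Prop :=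
  DSpace Y ∧ IsEmbedding i ∧ DDense (range i)

/-- Every continuous map from `X` into a member of `K` factors uniquely through `i : X → Y`. -/
def Universal (K : (Z : Type u) → TopologicalSpace Z → Prop) {X Y : Type u} [TopologicalSpace X]
    [TopologicalSpace Y] (i : X → Y) : Prop :=
  ∀ (Z : Type u) (_ : TopologicalSpace Z), K Z ‹_› → ∀ g : X → Z, Continuous g →
    ∃! g' : Y → Z, Continuous g' ∧ g = g' ∘ i

/-- `i : X → Y` is a completion of `X` with respect to the class `K` of spaces: `Y` is in `K`, `i` is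
continuous, and every continuous map from `X` into a member of `K` factors uniquely through `i`. -/
def Completion (K : (Z : Type u) → TopologicalSpace Z → Prop) {X Y : Type u} [TopologicalSpace X]
    [TopologicalSpace Y] (i : X → Y) : Prop :=
  K Y ‹_› ∧ Continuous i ∧ Universal K i

/-- the class of the Scott spaces -/
def Scotts (Z : Type u) (_ : TopologicalSpace Z) : Prop := ScottSpace Z

/-- the class of the d-spaces -/
def DSpaces (Z : Type u) (_ : TopologicalSpace Z) : Prop := DSpace Z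

theorem ScottSpace.dSpace {X : Type u} [TopologicalSpace X] (h : ScottSpace X) : DSpace X :=
  ⟨h.1, h.2.1, fun U => (h.2.2 U).1⟩

/-! ### Universality of D-completions -/

section B

theorem sp_iff {Y : Type u} [TopologicalSpace Y] {a b : Y} :
    Sp a b ↔ ∀ U, IsOpen U → a ∈ U → b ∈ U := by
  rw [Sp, ← specializes_iff_mem_closure, specializes_iff_forall_open]

theorem eq_of_mem_iff {Y : Type u} [TopologicalSpace Y] [T0Space Y] {a b : Y}
    (h : ∀ U, IsOpen U → (a ∈ U ↔ b ∈ U)) : a = b :=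
  (inseparable_iff_forall_isOpen.2 h).eq

theorem open_ext {X Y : Type u} [TopologicalSpace Y] {i : X → Y} (hY : DSpace Y) (hd : DDense (range i)) {U V : Set Y} (hU : IsOpen U)
    (hV : IsOpen V) (h : i ⁻¹' U = i ⁻¹' V) : U = V := by
  have h1 : {y | y ∈ U ↔ y ∈ V} = univ := by
    refine hd _ (fun D hD dD s hs => ?_) ?_
    · constructor
      · intro h2
        obtain ⟨d, hd1, hd2⟩ := (hY.2.2 U hU).2 D s dD hs h2
        exact (hY.2.2 V hV).1 d ((hD hd1).1 hd2) s (hs.1 d hd1)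
      · intro h2
        obtain ⟨d, hd1, hd2⟩ := (hY.2.2 V hV).2 D s dD hs h2
        exact (hY.2.2 U hU).1 d ((hD hd1).2 hd2) s (hs.1 d hd1)
    · rintro _ ⟨x, rfl⟩
      exact Set.ext_iff.1 h x
  exact Set.ext fun y => (Set.ext_iff.1 h1 y).2 trivial

theorem universal_of_dCompletion {X Y : Type u} [TopologicalSpace X] [TopologicalSpace Y]
    {i : X → Y} (h : DCompletion i) : Universal DSpaces i := by
  obtain ⟨hY, he, hd⟩ := h
  intro Z _ hZ g hg
  have hZ' : DSpace Z := hZ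
  have _ := hZ'.1
  have lift : ∀ V : Set Z, IsOpen V → ∃ U : Set Y, IsOpen U ∧ i ⁻¹' U = g ⁻¹' V := fun V hV =>
    he.isInducing.isOpen_iff.1 (hV.preimage hg)
  let P : Y → Z → Prop := fun y z => ∀ U V, IsOpen U → IsOpen V → i ⁻¹' U = g ⁻¹' V → (y ∈ U ↔ z ∈ V)
  have uniq : ∀ y z z', P y z → P y z' → z = z' := fun y z z' h1 h2 =>
    eq_of_mem_iff fun V hV => by
      obtain ⟨U, hU, e⟩ := lift V hV
      exact (h1 U V hU hV e).symm.trans (h2 U V hU hV e)
  have base : ∀ x, P (i x) (g x) := fun x U V _ _ e => Set.ext_iff.1 e x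
  have all : {y | ∃ z, P y z} = univ := by
    refine hd _ (fun D hD dD s hs => ?_) ?_
    · let E : Set Z := {z | ∃ y ∈ D, P y z}
      have dE : Dir E := by
        obtain ⟨y, hy⟩ := dD.1
        obtain ⟨z, hz⟩ := hD hy
        refine ⟨⟨z, y, hy, hz⟩, ?_⟩
        rintro z1 ⟨y1, hy1, h1⟩ z2 ⟨y2, hy2, h2⟩
        obtain ⟨y3, hy3, s1, s2⟩ := dD.2 y1 hy1 y2 hy2
        obtain ⟨z3, h3⟩ := hD hy3
        refine ⟨z3, ⟨y3, hy3, h3⟩, sp_iff.2 fun V hV hz1 => ?_, sp_iff.2 fun V hV hz2 => ?_⟩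
        · obtain ⟨U, hU, e⟩ := lift V hV
          exact (h3 U V hU hV e).1 (sp_iff.1 s1 U hU ((h1 U V hU hV e).2 hz1))
        · obtain ⟨U, hU, e⟩ := lift V hV
          exact (h3 U V hU hV e).1 (sp_iff.1 s2 U hU ((h2 U V hU hV e).2 hz2))
      obtain ⟨t, ht⟩ := hZ'.2.1 E dE
      refine ⟨t, fun U V hU hV e => ⟨fun h1 => ?_, fun h1 => ?_⟩⟩
      · obtain ⟨d, hd1, hd2⟩ := (hY.2.2 U hU).2 D s dD hs h1
        obtain ⟨z, hz⟩ := hD hd1
        exact (hZ'.2.2 V hV).1 z ((hz U V hU hV e).1 hd2) t (ht.1 z ⟨d, hd1, hz⟩)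
      · obtain ⟨z, ⟨d, hd1, hz⟩, hz2⟩ := (hZ'.2.2 V hV).2 E t dE ht h1
        exact (hY.2.2 U hU).1 d ((hz U V hU hV e).2 hz2) s (hs.1 d hd1)
    · rintro _ ⟨x, rfl⟩
      exact ⟨g x, base x⟩
  choose g' hg' using fun y => (Set.ext_iff.1 all y).2 trivial
  refine ⟨g', ⟨⟨fun V hV => ?_⟩, funext fun x => uniq _ _ _ (base x) (hg' (i x))⟩, ?_⟩
  · obtain ⟨U, hU, e⟩ := lift V hV
    have : g' ⁻¹' V = U := Set.ext fun y => (hg' y U V hU hV e).symm
    rwa [this]
  · rintro k ⟨hk, rfl⟩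
    refine funext fun y => uniq y _ _ (fun U V hU hV e => ?_) (hg' y)
    rw [open_ext hY hd hU (hV.preimage hk) e]
    rfl

end B

/-! ### The test spaces -/

theorem scottSpace (P : Type u) [PartialOrder P] [TopologicalSpace P] [IsScott P univ]
    (h : ∀ D : Set P, D.Nonempty → DirectedOn (· ≤ ·) D → ∃ s, IsLUB D s) : ScottSpace P := by
  have sp : ∀ a b : P, Sp a b ↔ a ≤ b := fun a b => by rw [Sp, IsScott.closure_singleton]; rfl
  have dir : ∀ D : Set P, Dir D ↔ D.Nonempty ∧ DirectedOn (· ≤ ·) D := fun D => by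
    simp only [Dir, sp]; rfl
  have sup : ∀ (D : Set P) s, IsSup D s ↔ IsLUB D s := fun D s => by
    simp only [IsSup, sp]; rfl
  refine ⟨inferInstance, fun D hD => ?_, fun U => ?_⟩
  · simpa only [sup] using h D ((dir D).1 hD).1 ((dir D).1 hD).2
  · rw [IsScott.isOpen_iff_isUpperSet_and_dirSupInaccOn (D := univ), dirSupInaccOn_univ]
    simp only [ScottOpen, sp, dir, sup]
    exact ⟨fun ⟨h1, h2⟩ => ⟨fun a ha b hb => h1 hb ha, fun D s hD hs hU => h2 hD.1 hD.2 hs hU⟩,
      fun ⟨h1, h2⟩ => ⟨fun a b hb ha => h1 a ha b hb, fun D e1 e2 s hs hU => h2 D s ⟨e1, e2⟩ hs hU⟩⟩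

/-- the two-point chain -/
inductive Two : Type u
  | bot : Two
  | top : Two

open Two

instance : PartialOrder Two.{u} where
  le a b := a = bot ∨ b = top
  le_refl a := by cases a <;> simp
  le_trans a b c h h' := by
    rcases h with rfl | rfl
    · exact Or.inl rfl
    · rcases h' with h | h
      · cases h
      · exact Or.inr h
  le_antisymm a b h h' := by
    cases a <;> cases b <;> simp_all

instance : TopologicalSpace Two.{u} := scott Two univ
instance : IsScott Two.{u} univ := ⟨rfl⟩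

theorem two_scott : ScottSpace Two.{u} := by
  refine scottSpace Two fun D hD _ => ?_
  by_cases h : top ∈ D
  · exact ⟨top, fun d _ => Or.inr rfl, fun u hu => hu h⟩
  · refine ⟨bot, fun d hd => ?_, fun u _ => Or.inl rfl⟩
    cases d with
    | bot => exact Or.inl rfl
    | top => exact absurd hd h

theorem isOpen_top : IsOpen {z : Two.{u} | z = top} := by
  rw [IsScott.isOpen_iff_isUpperSet_and_dirSupInaccOn (D := univ), dirSupInaccOn_univ]
  refine ⟨?_, ?_⟩
  · rintro a b (rfl | rfl) h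
    · cases h
    · rfl
  · intro D h1 h2 s hs hU
    obtain rfl : s = top := hU
    by_contra hc
    have h3 : ∀ d ∈ D, d = bot := fun d hd => by
      cases d with
      | bot => rfl
      | top => exact absurd ⟨_, hd, rfl⟩ hc
    have h4 : (top : Two) ≤ bot := hs.2 fun d hd => Or.inl (h3 d hd)
    rcases h4 with h | h <;> cases h

open Classical in
/-- the characteristic map of a set -/
noncomputable def chi {X : Type u} (U : Set X) (x : X) : Two.{u} := if x ∈ U then top else bot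

theorem chi_eq {X : Type u} (U : Set X) (x : X) : chi U x = top ↔ x ∈ U := by
  unfold chi
  split_ifs with h
  · simp [h]
  · simp [h]

theorem continuous_chi {X : Type u} [TopologicalSpace X] {U : Set X} (hU : IsOpen U) :
    Continuous (chi U) := by
  refine ⟨fun W hW => ?_⟩
  have hW' := ((IsScott.isOpen_iff_isUpperSet_and_dirSupInaccOn (D := univ)).1 hW).1
  by_cases h1 : bot ∈ W
  · have : W = univ := eq_univ_of_forall fun z => hW' (show bot ≤ z from Or.inl rfl) h1
    rw [this]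
    exact isOpen_univ
  · by_cases h2 : top ∈ W
    · have : chi U ⁻¹' W = U := by
        ext x
        change chi U x ∈ W ↔ x ∈ U
        rw [← chi_eq U x]
        constructor
        · intro h
          generalize chi U x = z at h
          cases z with
          | bot => exact absurd h h1
          | top => rfl
        · intro h
          rwa [h]
      rwa [this]
    · have : W = ∅ := by
        ext z
        cases z with
        | bot => simpa using h1
        | top => simpa using h2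
      rw [this]
      exact isOpen_empty

theorem isOpen_of_continuous {X : Type u} [TopologicalSpace X] {f : X → Two.{u}}
    (hf : Continuous f) : IsOpen {x | f x = top} := isOpen_top.preimage hf

section A

variable {Y : Type u} [TopologicalSpace Y]

/-- the open neighbourhoods -/
def N (y : Y) : Set (Set Y) := {U | IsOpen U ∧ y ∈ U}

theorem N_sub {a b : Y} : N a ⊆ N b ↔ Sp a b := by
  rw [sp_iff]
  exact ⟨fun h U h1 h2 => (h ⟨h1, h2⟩).2, fun h U hU => ⟨hU.1, h U hU.1 hU.2⟩⟩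

theorem N_inj [T0Space Y] {a b : Y} (h : N a = N b) : a = b :=
  (inseparable_iff_mem_closure.2 ⟨N_sub.1 h.le, N_sub.1 h.ge⟩).eq

/-- Points of `C` together with a family of open neighbourhoods. -/
@[ext] structure Z (C : Set Y) : Type u where
  y : Y
  F : Set (Set Y)
  hy : y ∈ C
  hF : F ⊆ N y

variable {C : Set Y}

instance [T0Space Y] : PartialOrder (Z C) where
  le a b := a.F ⊆ b.F ∧ (a.y = b.y ∨ b.F = N b.y)
  le_refl _ := ⟨subset_rfl, Or.inl rfl⟩
  le_trans a b c h h' := ⟨h.1.trans h'.1, by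
    rcases h'.2 with e | e
    · rcases h.2 with f | f
      · exact Or.inl (f.trans e)
      · exact Or.inr (subset_antisymm c.hF (by rw [← e, ← f]; exact h'.1))
    · exact Or.inr e⟩
  le_antisymm a b h h' := by
    have e := subset_antisymm h.1 h'.1
    refine Z.ext ?_ e
    rcases h.2 with f | f
    · exact f
    · rcases h'.2 with g | g
      · exact g.symm
      · exact N_inj (by rw [← f, ← g, e])

/-- the point with all its open neighbourhoods -/
def full (y : Y) (h : y ∈ C) : Z C := ⟨y, N y, h, subset_rfl⟩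

theorem lub [T0Space Y] (hY : DSpace Y) (hC : DClosed C) (D : Set (Z C)) (hne : D.Nonempty)
    (hD : DirectedOn (· ≤ ·) D) : ∃ s, IsLUB D s ∧ ∀ U ∈ s.F, ∃ d ∈ D, U ∈ d.F := by
  by_cases h : ∀ d ∈ D, ∃ e ∈ D, d ≤ e ∧ e.F = N e.y
  · let E : Set Y := {y | ∃ e ∈ D, e.y = y ∧ e.F = N e.y}
    have dE : Dir E := by
      obtain ⟨d, hd⟩ := hne
      obtain ⟨e, he, -, h1⟩ := h d hd
      refine ⟨⟨_, e, he, rfl, h1⟩, ?_⟩
      rintro _ ⟨a, ha, rfl, a1⟩ _ ⟨b, hb, rfl, b1⟩
      obtain ⟨c, hc, c1, c2⟩ := hD a ha b hb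
      obtain ⟨e, he, e1, e2⟩ := h c hc
      exact ⟨_, ⟨e, he, rfl, e2⟩, N_sub.1 (a1 ▸ e2 ▸ (c1.trans e1).1),
        N_sub.1 (b1 ▸ e2 ▸ (c2.trans e1).1)⟩
    obtain ⟨s, hs⟩ := hY.2.1 E dE
    have sC : s ∈ C := hC E (by rintro _ ⟨e, -, rfl, -⟩; exact e.hy) dE s hs
    have key : ∀ U ∈ N s, ∃ d ∈ D, U ∈ d.F := fun U hU => by
      obtain ⟨_, ⟨e, he, rfl, e1⟩, h2⟩ := (hY.2.2 U hU.1).2 E s dE hs hU.2
      exact ⟨e, he, e1 ▸ ⟨hU.1, h2⟩⟩
    refine ⟨full s sC, ⟨fun d hd => ?_, fun u hu => ⟨fun U hU => ?_, ?_⟩⟩, key⟩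
    · obtain ⟨e, he, e1, e2⟩ := h d hd
      exact ⟨e1.1.trans (e2 ▸ N_sub.2 (hs.1 _ ⟨e, he, rfl, e2⟩)), Or.inr rfl⟩
    · obtain ⟨d, hd, h'⟩ := key U hU
      exact (hu hd).1 h'
    · obtain ⟨_, e, he, -, e1⟩ := dE.1
      refine Or.inr ((hu he).2.elim (fun g => subset_antisymm u.hF ?_) id)
      rw [← g, ← e1]
      exact (hu he).1
  · push Not at h
    obtain ⟨d0, h0, h⟩ := h
    have e : ∀ d ∈ D, d.y = d0.y := fun d hd => by
      obtain ⟨c, hc, c1, c2⟩ := hD d hd d0 h0
      exact (c1.2.resolve_right (h c hc c2)).trans (c2.2.resolve_right (h c hc c2)).symm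
    exact ⟨⟨d0.y, {U | ∃ d ∈ D, U ∈ d.F}, d0.hy, fun U ⟨d, hd, h⟩ => e d hd ▸ d.hF h⟩,
      ⟨fun d hd => ⟨fun U hU => ⟨d, hd, hU⟩, Or.inl (e d hd)⟩,
        fun u hu => ⟨fun U ⟨d, hd, h⟩ => (hu hd).1 h, (hu h0).2⟩⟩, fun U h => h⟩

instance [T0Space Y] : TopologicalSpace (Z C) := scott (Z C) univ
instance [T0Space Y] : IsScott (Z C) univ := ⟨rfl⟩

theorem hat_open [T0Space Y] (hY : DSpace Y) (hC : DClosed C) (U : Set Y) :
    IsOpen {z : Z C | U ∈ z.F} := by
  rw [IsScott.isOpen_iff_isUpperSet_and_dirSupInaccOn (D := univ), dirSupInaccOn_univ]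
  refine ⟨fun a b h ha => h.1 ha, fun D h1 h2 s hs hU => ?_⟩
  obtain ⟨s', e1, e2⟩ := lub hY hC D h1 h2
  exact e2 U (hs.unique e1 ▸ hU)

theorem top_nhds [T0Space Y] {W : Set (Z C)} (hW : IsOpen W) {y : Y} {h : y ∈ C}
    (hy : full y h ∈ W) : ∃ U, IsOpen U ∧ y ∈ U ∧ ∀ x ∈ U, ∀ hx, full x hx ∈ W := by
  rw [IsScott.isOpen_iff_isUpperSet_and_dirSupInaccOn (D := univ), dirSupInaccOn_univ] at hW
  have h2 := hW.2
  obtain ⟨z, ⟨z1, z2⟩, z3⟩ := h2 (d := {z : Z C | z.y = y ∧ z.F.Finite})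
    ⟨⟨y, ∅, h, empty_subset _⟩, rfl, finite_empty⟩
    (fun a ha b hb => ⟨⟨y, a.F ∪ b.F, h, union_subset (ha.1 ▸ a.hF) (hb.1 ▸ b.hF)⟩,
      ⟨rfl, ha.2.union hb.2⟩, ⟨subset_union_left, Or.inl ha.1⟩, ⟨subset_union_right, Or.inl hb.1⟩⟩)
    (a := full y h) ⟨fun a ha => ⟨ha.1 ▸ a.hF, Or.inr rfl⟩, fun u hu =>
      ⟨fun U hU => (hu (show (⟨y, {U}, h, singleton_subset_iff.2 hU⟩ : Z C) ∈ _ from
        ⟨rfl, finite_singleton U⟩)).1 rfl,
      (hu (show (⟨y, ∅, h, empty_subset _⟩ : Z C) ∈ _ from ⟨rfl, finite_empty⟩)).2⟩⟩ hy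
  exact ⟨⋂₀ z.F, z2.isOpen_sInter fun U hU => (z.hF hU).1, fun U hU => z1 ▸ (z.hF hU).2,
    fun x hx h' => hW.1 (show z ≤ full x h' from
      ⟨fun U hU => ⟨(z.hF hU).1, hx U hU⟩, Or.inr rfl⟩) z3⟩

/-- A continuous map into a d-space which is universal for the maps into Scott spaces is a
D-completion. -/
theorem dCompletion_of_universal {X : Type u} [TopologicalSpace X] [T0Space X] (i : X → Y)
    (hY : DSpace Y) (hi : Continuous i) (h : Universal Scotts i) : DCompletion i := by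
  have _ := hY.1
  have inj : ∀ U V : Set Y, IsOpen U → IsOpen V → i ⁻¹' U = i ⁻¹' V → U = V := fun U V hU hV e => by
    have h1 : chi U ∘ i = chi V ∘ i := funext fun x => by
      have h3 : i x ∈ U ↔ i x ∈ V := Set.ext_iff.1 e x
      by_cases h4 : i x ∈ U
      · exact ((chi_eq U _).2 h4).trans ((chi_eq V _).2 (h3.1 h4)).symm
      · have h5 : i x ∉ V := fun h => h4 (h3.2 h)
        simp [chi, h4, h5]
    have h2 := (h Two _ two_scott (chi U ∘ i) ((continuous_chi hU).comp hi)).unique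
      ⟨continuous_chi hU, rfl⟩ ⟨continuous_chi hV, h1⟩
    ext y
    rw [← chi_eq U y, h2, chi_eq V y]
  have ind : IsInducing i := by
    refine ⟨le_antisymm hi.le_induced fun U hU => ?_⟩
    obtain ⟨g, ⟨g1, g2⟩, -⟩ := h Two _ two_scott (chi U) (continuous_chi hU)
    refine ⟨{y | g y = top}, isOpen_of_continuous g1, ?_⟩
    ext x
    rw [← chi_eq U x, g2]
    rfl
  refine ⟨hY, ind.isEmbedding, fun C hC hs => ?_⟩
  obtain ⟨g, ⟨g1, g2⟩, -⟩ := h (Z C) _
    (scottSpace _ fun D h1 h2 => (lub hY hC D h1 h2).imp fun _ h => h.1)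
    (fun x => full (i x) (hs ⟨x, rfl⟩)) (continuous_def.2 fun W hW => isOpen_iff_forall_mem_open.2
      fun x hx => by
        obtain ⟨U, h1, h2, h3⟩ := top_nhds hW hx
        exact ⟨i ⁻¹' U, fun x hx => h3 _ hx _, h1.preimage hi, h2⟩)
  have g3 : ∀ x, g (i x) = full (i x) (hs ⟨x, rfl⟩) := fun x => (congrFun g2 x).symm
  refine eq_univ_of_forall fun p => ?_
  have e1 : (g p).F = N p := by
    have : ∀ U, IsOpen U → (U ∈ (g p).F ↔ p ∈ U) := fun U hU =>
      Set.ext_iff.1 (inj _ _ ((hat_open hY hC U).preimage g1) hU (Set.ext fun x => by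
        show U ∈ (g (i x)).F ↔ i x ∈ U
        rw [g3]
        exact and_iff_right hU)) p
    exact Set.ext fun U => ⟨fun hU => ⟨((g p).hF hU).1, (this U ((g p).hF hU).1).1 hU⟩,
      fun hU => (this U hU.1).2 hU.2⟩
  obtain ⟨x, hx⟩ : ∃ x, Sp (i x) p := by
    by_contra hc
    push Not at hc
    have := inj (closure {p})ᶜ univ isClosed_closure.isOpen_compl isOpen_univ
      (eq_univ_of_forall hc)
    exact (this ▸ mem_univ p : p ∈ (closure {p})ᶜ) (subset_closure rfl)
  have e2 : g (i x) ≤ g p := by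
    have := image_closure_subset_closure_image g1 ⟨i x, hx, rfl⟩
    rwa [image_singleton, IsScott.closure_singleton] at this
  rw [g3] at e2
  have e3 : (g p).F = N (g p).y :=
    e2.2.elim (fun e => subset_antisymm (g p).hF (by rw [← e]; exact e2.1)) id
  rw [N_inj (e1.symm.trans e3)]
  exact (g p).hy

end A

/-! ### Existence of D-completions -/

section Existence

variable (Y : Type u) [TopologicalSpace Y]

/-- the closure of the neighbourhood filters under directed unions -/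
inductive Cl : Set (Set Y) → Prop
  | base (y : Y) : Cl (N y)
  | sup (D : Set (Set (Set Y))) : D.Nonempty → DirectedOn (· ⊆ ·) D → (∀ F ∈ D, Cl F) → Cl (⋃₀ D)

/-- the D-completion of `Y` -/
def Hat : Type u := {F : Set (Set Y) // Cl Y F}

variable {Y}

theorem Cl.isOpen {F : Set (Set Y)} (h : Cl Y F) : ∀ U ∈ F, IsOpen U := by
  induction h with
  | base y => exact fun U hU => hU.1
  | sup D _ _ _ ih => exact fun U ⟨F, hF, hU⟩ => ih F hF U hU

theorem Cl.univ_mem {F : Set (Set Y)} (h : Cl Y F) : univ ∈ F := by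
  induction h with
  | base y => exact ⟨isOpen_univ, trivial⟩
  | sup D hne _ _ ih => obtain ⟨F, hF⟩ := hne; exact ⟨F, hF, ih F hF⟩

theorem Cl.upward {F : Set (Set Y)} (h : Cl Y F) : ∀ U ∈ F, ∀ V, IsOpen V → U ⊆ V → V ∈ F := by
  induction h with
  | base y => exact fun U hU V hV h => ⟨hV, h hU.2⟩
  | sup D _ _ _ ih => exact fun U ⟨F, hF, hU⟩ V hV h => ⟨F, hF, ih F hF U hU V hV h⟩

theorem Cl.inter {F : Set (Set Y)} (h : Cl Y F) : ∀ U ∈ F, ∀ V ∈ F, U ∩ V ∈ F := by
  induction h with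
  | base y => exact fun U hU V hV => ⟨hU.1.inter hV.1, hU.2, hV.2⟩
  | sup D _ hdir _ ih =>
    rintro U ⟨F, hF, hU⟩ V ⟨G, hG, hV⟩
    obtain ⟨H, hH, h1, h2⟩ := hdir F hF G hG
    exact ⟨H, hH, ih H hH U (h1 hU) V (h2 hV)⟩

theorem Cl.prime {F : Set (Set Y)} (h : Cl Y F) : ∀ S : Set (Set Y), (∀ U ∈ S, IsOpen U) →
    ⋃₀ S ∈ F → ∃ U ∈ S, U ∈ F := by
  induction h with
  | base y =>
    rintro S hS ⟨_, U, hU, h⟩
    exact ⟨U, hU, hS U hU, h⟩
  | sup D _ _ _ ih =>
    rintro S hS ⟨F, hF, h⟩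
    obtain ⟨U, hU, h1⟩ := ih F hF S hS h
    exact ⟨U, hU, F, hF, h1⟩

instance : TopologicalSpace (Hat Y) where
  IsOpen W := ∃ U : Set Y, IsOpen U ∧ W = {F | U ∈ F.1}
  isOpen_univ := ⟨univ, isOpen_univ, (eq_univ_of_forall fun F => F.2.univ_mem).symm⟩
  isOpen_inter := by
    rintro _ _ ⟨U, hU, rfl⟩ ⟨V, hV, rfl⟩
    refine ⟨U ∩ V, hU.inter hV, Set.ext fun F => ⟨fun h => F.2.inter U h.1 V h.2, fun h => ⟨?_, ?_⟩⟩⟩
    · exact F.2.upward _ h U hU inter_subset_left
    · exact F.2.upward _ h V hV inter_subset_right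
  isOpen_sUnion := by
    intro S hS
    refine ⟨⋃₀ {U | IsOpen U ∧ {F : Hat Y | U ∈ F.1} ∈ S}, isOpen_sUnion fun U hU => hU.1,
      Set.ext fun F => ⟨?_, fun h => ?_⟩⟩
    · rintro ⟨W, hW, hF⟩
      obtain ⟨U, hU, rfl⟩ := hS W hW
      exact F.2.upward U hF _ (isOpen_sUnion fun U hU => hU.1) (subset_sUnion_of_mem ⟨hU, hW⟩)
    · obtain ⟨U, hU, h1⟩ := F.2.prime _ (fun U hU => hU.1) h
      exact ⟨_, hU.2, h1⟩

theorem hat_isOpen {U : Set Y} (hU : IsOpen U) : IsOpen {F : Hat Y | U ∈ F.1} := ⟨U, hU, rfl⟩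

theorem hat_sp {F G : Hat Y} : Sp F G ↔ F.1 ⊆ G.1 := by
  rw [sp_iff]
  constructor
  · exact fun h U hU => h _ (hat_isOpen (F.2.isOpen U hU)) hU
  · rintro h _ ⟨U, hU, rfl⟩ h1
    exact h h1

/-- the embedding -/
def emb (y : Y) : Hat Y := ⟨N y, Cl.base y⟩

theorem hat_sup {D : Set (Hat Y)} (hD : Dir D) : ∃ s : Hat Y, s.1 = ⋃₀ (Subtype.val '' D) ∧
    IsSup D s := by
  have h1 : DirectedOn (· ⊆ ·) (Subtype.val '' D) := by
    rintro _ ⟨F, hF, rfl⟩ _ ⟨G, hG, rfl⟩
    obtain ⟨H, hH, h1, h2⟩ := hD.2 F hF G hG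
    exact ⟨_, ⟨H, hH, rfl⟩, hat_sp.1 h1, hat_sp.1 h2⟩
  refine ⟨⟨_, Cl.sup _ (hD.1.image _) h1 (by rintro _ ⟨F, _, rfl⟩; exact F.2)⟩, rfl, ?_, ?_⟩
  · exact fun F hF => hat_sp.2 (subset_sUnion_of_mem ⟨F, hF, rfl⟩)
  · intro u hu
    refine hat_sp.2 (sUnion_subset ?_)
    rintro _ ⟨F, hF, rfl⟩
    exact hat_sp.1 (hu F hF)

theorem hat_t0 : T0Space (Hat Y) := ⟨fun _ _ h => Subtype.ext (subset_antisymm
  (hat_sp.1 (sp_iff.2 fun U hU => ((inseparable_iff_forall_isOpen.1 h) U hU).1))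
  (hat_sp.1 (sp_iff.2 fun U hU => ((inseparable_iff_forall_isOpen.1 h) U hU).2)))⟩

theorem dSpace_hat : DSpace (Hat Y) := by
  refine ⟨hat_t0, fun D hD => (hat_sup hD).imp fun _ h => h.2, ?_⟩
  rintro _ ⟨U, hU, rfl⟩
  refine ⟨fun F hF G h => hat_sp.1 h hF, fun D s hD hs h => ?_⟩
  obtain ⟨s', h1, h2⟩ := hat_sup hD
  have h3 : U ∈ s'.1 := hat_sp.1 (hs.2 s' h2.1) h
  rw [h1] at h3
  obtain ⟨_, ⟨F, hF, rfl⟩, h4⟩ := h3
  exact ⟨F, hF, h4⟩

theorem hat_dense : DDense (range (emb (Y := Y))) := by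
  intro C hC hN
  have key : ∀ F (h : Cl Y F), (⟨F, h⟩ : Hat Y) ∈ C := by
    intro F h
    induction h with
    | base y => exact hN ⟨y, rfl⟩
    | sup D hne hdir hD ih =>
      refine hC {G : Hat Y | G.1 ∈ D} (fun G hG => ih G.1 hG) ⟨?_, ?_⟩ _ ⟨?_, ?_⟩
      · obtain ⟨F, hF⟩ := hne
        exact ⟨⟨F, hD F hF⟩, hF⟩
      · intro F hF G hG
        obtain ⟨H, hH, h1, h2⟩ := hdir F.1 hF G.1 hG
        exact ⟨⟨H, hD H hH⟩, hH, hat_sp.2 h1, hat_sp.2 h2⟩
      · exact fun F hF => hat_sp.2 (subset_sUnion_of_mem hF)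
      · exact fun u hu => hat_sp.2 (sUnion_subset fun F hF => hat_sp.1 (hu ⟨F, hD F hF⟩ hF))
  exact eq_univ_of_forall fun F => key F.1 F.2

theorem dCompletion_emb [T0Space Y] : DCompletion (emb (Y := Y)) := by
  have pre : ∀ U : Set Y, IsOpen U → emb (Y := Y) ⁻¹' {F | U ∈ F.1} = U := fun U hU =>
    Set.ext fun y => ⟨fun h => h.2, fun h => ⟨hU, h⟩⟩
  have cont : Continuous (emb (Y := Y)) := by
    refine ⟨?_⟩
    rintro _ ⟨U, hU, rfl⟩
    rwa [pre U hU]
  have ind : IsInducing (emb (Y := Y)) :=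
    ⟨le_antisymm cont.le_induced fun U hU => ⟨_, hat_isOpen hU, pre U hU⟩⟩
  exact ⟨dSpace_hat, ind.isEmbedding, hat_dense⟩

end Existence

/-! ### Consequences -/

section Final

variable {X Y : Type u} [TopologicalSpace X] [TopologicalSpace Y]

theorem Universal.mono {K L : (Z : Type u) → TopologicalSpace Z → Prop}
    (h : ∀ Z t, K Z t → L Z t) {i : X → Y} (hi : Universal L i) : Universal K i :=
  fun Z t hZ => hi Z t (h Z t hZ)

/-- A composition of a map universal for Scott spaces and a D-completion -/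
theorem comp_of_universal [T0Space X] {i : X → Y} (hi : Continuous i) (h : Universal Scotts i)
    {W : Type u} [TopologicalSpace W] {j : Y → W} (hj : DCompletion j) : DCompletion (j ∘ i) := by
  have hjc : Continuous j := hj.2.1.continuous
  refine dCompletion_of_universal _ hj.1 (hjc.comp hi) fun Z t hZ g hg => ?_
  obtain ⟨g1, ⟨hg1, rfl⟩, u1⟩ := h Z t hZ g hg
  obtain ⟨g2, ⟨hg2, rfl⟩, u2⟩ := universal_of_dCompletion hj Z t hZ.dSpace g1 hg1
  refine ⟨g2, ⟨hg2, rfl⟩, ?_⟩
  rintro g3 ⟨hg3, e⟩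
  exact u2 g3 ⟨hg3, (u1 (g3 ∘ j) ⟨hg3.comp hjc, e⟩).symm⟩

theorem universal_of_comp {i : X → Y} {W : Type u} [TopologicalSpace W]
    {j : Y → W} (hj : DCompletion j) (h : DCompletion (j ∘ i)) : Universal DSpaces i := by
  have hjc : Continuous j := hj.2.1.continuous
  intro Z t hZ g hg
  obtain ⟨g1, ⟨hg1, rfl⟩, u1⟩ := universal_of_dCompletion h Z t hZ g hg
  refine ⟨g1 ∘ j, ⟨hg1.comp hjc, rfl⟩, ?_⟩
  rintro g2 ⟨hg2, e⟩
  obtain ⟨g3, ⟨hg3, rfl⟩, -⟩ := universal_of_dCompletion hj Z t hZ g2 hg2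
  rw [u1 g3 ⟨hg3, e⟩]

/-- D-completions are unique. -/
theorem homeo {W : Type u} [TopologicalSpace W] {i : X → Y} {j : X → W} (hi : DCompletion i)
    (hj : DCompletion j) : ∃ e : Y ≃ₜ W, ∀ x, e (i x) = j x := by
  have hic : Continuous i := hi.2.1.continuous
  have hjc : Continuous j := hj.2.1.continuous
  obtain ⟨f, ⟨hf, f1⟩, -⟩ := universal_of_dCompletion hi W _ hj.1 j hjc
  obtain ⟨g, ⟨hg, g1⟩, -⟩ := universal_of_dCompletion hj Y _ hi.1 i hic
  have h1 : g ∘ f = id := (universal_of_dCompletion hi Y _ hi.1 i hic).unique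
    ⟨hg.comp hf, by rw [Function.comp_assoc, ← f1, ← g1]⟩ ⟨continuous_id, rfl⟩
  have h2 : f ∘ g = id := (universal_of_dCompletion hj W _ hj.1 j hjc).unique
    ⟨hf.comp hg, by rw [Function.comp_assoc, ← g1, ← f1]⟩ ⟨continuous_id, rfl⟩
  let e : Y ≃ₜ W :=
    { toFun := f
      invFun := g
      left_inv := congrFun h1
      right_inv := congrFun h2
      continuous_toFun := hf
      continuous_invFun := hg }
  exact ⟨e, fun x => (congrFun f1 x).symm⟩

theorem completion_iff {K : (Z : Type u) → TopologicalSpace Z → Prop}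
    (hS : ∀ Z t, Scotts Z t → K Z t) (hD : ∀ Z t, K Z t → DSpaces Z t) [T0Space X] (i : X → Y) :
    Completion K i ↔ K Y ‹_› ∧ DCompletion i :=
  ⟨fun h => ⟨h.1, dCompletion_of_universal i (hD _ _ h.1) h.2.1 (h.2.2.mono hS)⟩,
    fun h => ⟨h.1, h.2.2.1.continuous, (universal_of_dCompletion h.2).mono hD⟩⟩

end Final

/-- (1) Let the class `K` of spaces contain all Scott spaces and consist of d-spaces. For `T0` spaces
`X`, the completions `X → Y` with respect to `K` are exactly the D-completions with `Y` in `K`.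
(2) If, moreover, `K` is closed under homeomorphisms, then a `T0` space `X` has a completion with
respect to `K` if and only if the D-completion of `X` (which exists) is in `K`.
(3) For a continuous map `i : X → Y` of `T0` spaces it is equivalent that every continuous map of `X`
into a Scott space factors uniquely through `i`, that every continuous map of `X` into a d-space
factors uniquely through `i`, and that the composition of `i` and the D-completion of `Y` is the
D-completion of `X`; then `i` is an embedding.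
(4) (Q1) Every Scott completion of a `T0` space is a D-completion. -/
theorem result :
    (∀ K : (Z : Type u) → TopologicalSpace Z → Prop, (∀ Z t, Scotts Z t → K Z t) →
      (∀ Z t, K Z t → DSpaces Z t) →
      ∀ (X Y : Type u) [TopologicalSpace X] [T0Space X] [tY : TopologicalSpace Y] (i : X → Y),
        Completion K i ↔ K Y tY ∧ DCompletion i) ∧
    (∀ (X : Type u) [TopologicalSpace X] [T0Space X],
      ∃ (W : Type u) (tW : TopologicalSpace W) (j : X → W), DCompletion j ∧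
        ∀ K : (Z : Type u) → TopologicalSpace Z → Prop, (∀ Z t, Scotts Z t → K Z t) →
          (∀ Z t, K Z t → DSpaces Z t) →
          (∀ (Z Z' : Type u) (t : TopologicalSpace Z) (t' : TopologicalSpace Z'),
            Nonempty (Z ≃ₜ Z') → K Z t → K Z' t') →
          ((∃ (Y : Type u) (_ : TopologicalSpace Y) (i : X → Y), Completion K i) ↔ K W tW)) ∧
    (∀ (X Y : Type u) [TopologicalSpace X] [T0Space X] [TopologicalSpace Y] [T0Space Y] (i : X → Y),
      Continuous i →
        (Universal Scotts i ↔ Universal DSpaces i) ∧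
        (∀ (W : Type u) [TopologicalSpace W] (j : Y → W), DCompletion j →
          (Universal Scotts i ↔ DCompletion (j ∘ i))) ∧
        (Universal Scotts i → IsEmbedding i)) ∧
    (∀ (X Y : Type u) [TopologicalSpace X] [T0Space X] [TopologicalSpace Y] (i : X → Y),
      Completion Scotts i → DCompletion i) := by
  refine ⟨fun K hS hD X Y _ _ _ i => completion_iff hS hD i, fun X _ _ => ?_,
    fun X Y _ _ _ _ i hi => ⟨⟨fun h => ?_, fun h => ?_⟩, fun W _ j hj => ⟨fun h => ?_, fun h => ?_⟩,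
      fun h => ?_⟩, fun X Y _ _ _ i hi => ?_⟩
  · refine ⟨Hat X, inferInstance, emb, dCompletion_emb, fun K hS hD hK => ⟨?_, fun h => ?_⟩⟩
    · rintro ⟨Y, _, i, hi⟩
      obtain ⟨h1, h2⟩ := (completion_iff hS hD i).1 hi
      obtain ⟨e, -⟩ := homeo h2 (dCompletion_emb (Y := X))
      exact hK _ _ _ _ ⟨e⟩ h1
    · exact ⟨_, _, emb, (completion_iff hS hD _).2 ⟨h, dCompletion_emb⟩⟩
  · exact universal_of_comp dCompletion_emb (comp_of_universal hi h dCompletion_emb)
  · exact h.mono fun Z t hZ => hZ.dSpace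
  · exact comp_of_universal hi h hj
  · exact (universal_of_comp hj h).mono fun Z t hZ => hZ.dSpace
  · have h1 := comp_of_universal hi h (dCompletion_emb (Y := Y))
    exact h1.2.1.of_comp hi dCompletion_emb.2.1.continuous
  · exact ((completion_iff (fun _ _ h => h) (fun Z t hZ => hZ.dSpace) i).1 hi).2

end Pool.Agent.Results.MP_50fe75_gt.EveryClass
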